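import Pool.Agent.Helper81.HG.Defs

/-!
# Homomorphisms from finitely presented groups to the affine group of the line: the schemes
-/

set_option autoImplicit false

open AlgebraicGeometry MvPolynomial
open Pool.Agent.Helper81.HG

namespace Pool.Agent.OR

/-- The universal values of the letters `x_i` (the pair `(i, true)`) and `x_i⁻¹` (the pair
`(i, false)`) in the group of the affine maps `z ↦ a z + b`, written as matrices with rows
`(a, b)` and `(0, 1)`. The variables `(i, 0)`, `(i, 1)`, `(i, 2)` are `a_i`, `b_i` and the
inverse of `a_i`. -/
noncomputable def letter {n : ℕ} :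
    Fin n × Bool → Matrix (Fin 2) (Fin 2) (MvPolynomial (Fin n × Fin 3) ℤ)
  | (i, true) => !![X (i, 0), X (i, 1); 0, 1]
  | (i, false) => !![X (i, 2), -(X (i, 2) * X (i, 1)); 0, 1]

/-- the universal value of a word -/
noncomputable def word {n : ℕ} (w : List (Fin n × Bool)) :
    Matrix (Fin 2) (Fin 2) (MvPolynomial (Fin n × Fin 3) ℤ) :=
  (w.map letter).prod

/-- the equations `a_i a_i⁻¹ = 1` and `w_k = 1` -/
def relations {n : ℕ} {ι : Type} (w : ι → List (Fin n × Bool)) :
    Set (MvPolynomial (Fin n × Fin 3) ℤ) :=
  {f | ∃ i, f = X (i, 0) * X (i, 2) - 1} ∪ {f | ∃ k r s, f = (word (w k) - 1) r s}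

/-- The scheme over `ℤ/N` of homomorphisms from the group with generators `x_0, ..., x_(n-1)` and
relations `w_k = 1`, `k ∈ ι`, to the group `Aff` of the affine maps `z ↦ a z + b` of the line: its
points with values in a ring are the families of `n` affine maps with invertible `a` that satisfy
the relations. -/
noncomputable def HomAff (N n : ℕ) {ι : Type} (w : ι → List (Fin n × Bool)) : Scheme.{0} :=
  Zeros N (relations w)

/-- the homomorphisms from the groups with `n` generators and one relation `v ^ k = 1`, where
`k ≥ K` and `v` is in the commutator subgroup of the free group, to the affine group of the line.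
For `K = 1`, these are all relations `w = 1` with `w` in the commutator subgroup. -/
def OneRelator (N n K : ℕ) : Set Scheme.{0} :=
  {Y | ∃ (k : ℕ) (v : List (Fin n × Bool)), K ≤ k ∧
    FreeGroup.mk v ∈ commutator (FreeGroup (Fin n)) ∧
    Y = HomAff N n fun _ : Unit => (List.replicate k v).flatten}

/-- the homomorphisms from the groups with `n` generators and finitely many relations to the
affine group of the line -/
def FinitelyPresented (N n : ℕ) : Set Scheme.{0} :=
  {Y | ∃ (k : ℕ) (w : Fin k → List (Fin n × Bool)), Y = HomAff N n w}

end Pool.Agent.OR
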