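import Pool.Agent.OR.Tor

/-!
# From hypersurfaces to homomorphisms to the affine group
-/

set_option autoImplicit false

open MvPolynomial
open Pool.Agent.Helper81.CP Pool.Agent.Helper81.HG Pool.Agent.Helper45.RM

namespace Pool.Agent.OR

section

variable {n : ℕ}

/-- the polynomials of a word -/
def Wp (w : List (Fin n × Bool)) (K : ℕ) (r : MvPolynomial (Fin n) ℤ)
    (P : Fin n → MvPolynomial (Fin n) ℤ) : Prop :=
  ∀ (A : Type) [CommRing A] (x : Fin n × Fin 3 → A), (∀ i, x (i, 0) * x (i, 2) = 1) →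
    (∏ i, x (i, 0)) ^ K * wv x w 0 0 = ev (fun i => x (i, 0)) r ∧
    (∏ i, x (i, 0)) ^ K * wv x w 0 1 = ∑ j, ev (fun i => x (i, 0)) (P j) * x (j, 1) ∧
    wv x w 1 0 = 0 ∧ wv x w 1 1 = 1

open scoped Classical in
theorem exists_wp (w : List (Fin n × Bool)) :
    ∃ K r, ∃ P : Fin n → MvPolynomial (Fin n) ℤ, Wp w K r P := by
  induction w with
  | nil =>
    refine ⟨0, 1, fun _ => 0, fun A _ x _ => ?_⟩
    simp [wv]
  | cons l w ih =>
    obtain ⟨K, r, P, h⟩ := ih
    obtain ⟨i, b⟩ := l
    cases b with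
    | true =>
      refine ⟨K, X i * r, fun j => X i * P j + if j = i then tp n ^ K else 0,
        fun A _ x hx => ?_⟩
      obtain ⟨h1, h2, h3, h4⟩ := h A x hx
      rw [wv_cons]
      have e : ∑ j, ev (fun i => x (i, 0)) (X i * P j + if j = i then tp n ^ K else 0) * x (j, 1) =
          x (i, 0) * (∑ j, ev (fun i => x (i, 0)) (P j) * x (j, 1)) +
            (∏ i, x (i, 0)) ^ K * x (i, 1) := by
        have e1 : ∀ j, ev (fun i => x (i, 0)) (X i * P j + if j = i then tp n ^ K else 0) *
            x (j, 1) = x (i, 0) * (ev (fun i => x (i, 0)) (P j) * x (j, 1)) +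
            if j = i then (∏ i, x (i, 0)) ^ K * x (j, 1) else 0 := by
          intro j
          split_ifs <;> simp [ev_tp] <;> ring
        simp only [e1, Finset.sum_add_distrib, ← Finset.mul_sum, Finset.sum_ite_eq',
          Finset.mem_univ, if_true]
      rw [e, map_mul, ev_X, ← h1, ← h2]
      simp only [lv, Matrix.mul_apply, Fin.sum_univ_two, h3, h4]
      refine ⟨?_, ?_, ?_, ?_⟩ <;> simp <;> ring
    | false =>
      refine ⟨K + 1, (∏ j ∈ Finset.univ.erase i, X j) * r,
        fun j => (∏ j ∈ Finset.univ.erase i, X j) * P j -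
          if j = i then (∏ j ∈ Finset.univ.erase i, X j) * tp n ^ K else 0,
        fun A _ x hx => ?_⟩
      obtain ⟨h1, h2, h3, h4⟩ := h A x hx
      rw [wv_cons]
      have hT : (∏ i, x (i, 0)) * x (i, 2) = ∏ j ∈ Finset.univ.erase i, x (j, 0) := by
        rw [← Finset.mul_prod_erase _ _ (Finset.mem_univ i)]
        linear_combination (∏ j ∈ Finset.univ.erase i, x (j, 0)) * hx i
      have hT' : ev (fun i => x (i, 0)) (∏ j ∈ Finset.univ.erase i, X j) =
          (∏ i, x (i, 0)) * x (i, 2) := by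
        rw [hT, map_prod]
        simp
      have e : ∑ j, ev (fun i => x (i, 0)) ((∏ j ∈ Finset.univ.erase i, X j) * P j -
          if j = i then (∏ j ∈ Finset.univ.erase i, X j) * tp n ^ K else 0) * x (j, 1) =
          (∏ i, x (i, 0)) * x (i, 2) * (∑ j, ev (fun i => x (i, 0)) (P j) * x (j, 1)) -
            (∏ i, x (i, 0)) * x (i, 2) * (∏ i, x (i, 0)) ^ K * x (i, 1) := by
        have e1 : ∀ j, ev (fun i => x (i, 0)) ((∏ j ∈ Finset.univ.erase i, X j) * P j -
            if j = i then (∏ j ∈ Finset.univ.erase i, X j) * tp n ^ K else 0) * x (j, 1) =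
            (∏ i, x (i, 0)) * x (i, 2) * (ev (fun i => x (i, 0)) (P j) * x (j, 1)) -
            if j = i then (∏ i, x (i, 0)) * x (i, 2) * (∏ i, x (i, 0)) ^ K * x (j, 1) else 0 := by
          intro j
          rw [map_sub, map_mul, hT']
          split_ifs
          · rw [map_mul, hT', map_pow, ev_tp]
            ring
          · rw [map_zero]
            ring
        simp only [e1, Finset.sum_sub_distrib, ← Finset.mul_sum, Finset.sum_ite_eq',
          Finset.mem_univ, if_true]
      rw [e, map_mul, hT', ← h1, ← h2]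
      simp only [lv, Matrix.mul_apply, Fin.sum_univ_two, h3, h4]
      refine ⟨?_, ?_, ?_, ?_⟩ <;> simp <;> ring

variable {G : ∀ (R : Type) [CommRing R], Prop} (hG : RG G)

include hG

/-- **All homomorphisms from finitely presented groups on `n` generators to the affine group.** -/
theorem gs_relations (hH : HypG G n) {ι : Type} [Fintype ι] (w : ι → List (Fin n × Bool)) :
    GS G (relations w) := by
  classical
  choose K r P hP using fun k => exists_wp (w k)
  have h1 := wg_mem hG hH n P (Finset.univ.image fun k => r k - tp n ^ K k) (tp n)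
  unfold WG at h1
  have key : ∀ (A : Type) [CommRing A] (y : Fin n ⊕ Fin n → A),
      Lc (LS ((Finset.univ.image fun k => r k - tp n ^ K k : Finset _) :
        Set (MvPolynomial (Fin n) ℤ)) P) (rename Sum.inl (tp n)) y ↔
      (∀ i, IsUnit (y (Sum.inl i))) ∧
        (∀ k, ev (fun i => y (Sum.inl i)) (r k) = (∏ i, y (Sum.inl i)) ^ K k) ∧
        ∀ k, ∑ j, ev (fun i => y (Sum.inl i)) (P k j) * y (Sum.inr j) = 0 := by
    intro A _ y
    rw [lc_ls]
    unfold Lc Pt
    rw [unit_tp]
    simp only [Finset.coe_image, Set.forall_mem_image, map_sub, map_pow, ev_tp, sub_eq_zero,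
      Finset.coe_univ, Set.mem_univ, true_implies]
    tauto
  have key' : ∀ (A : Type) [CommRing A] (x : Fin n × Fin 3 → A),
      Lc (relations w) 1 x ↔ (∀ i, x (i, 0) * x (i, 2) = 1) ∧
        (∀ k, ev (fun i => x (i, 0)) (r k) = (∏ i, x (i, 0)) ^ K k) ∧
        ∀ k, ∑ j, ev (fun i => x (i, 0)) (P k j) * x (j, 1) = 0 := by
    intro A _ x
    unfold Lc
    rw [pt_relations, map_one]
    have hh : (∀ i, x (i, 0) * x (i, 2) = 1) → ∀ k, (wv x (w k) = 1 ↔
        ev (fun i => x (i, 0)) (r k) = (∏ i, x (i, 0)) ^ K k ∧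
        ∑ j, ev (fun i => x (i, 0)) (P k j) * x (j, 1) = 0) := by
      intro hx k
      have hu : IsUnit ((∏ i, x (i, 0)) ^ K k) :=
        (IsUnit.prod_univ_iff.2 fun i => IsUnit.of_mul_eq_one _ (hx i)).pow _
      obtain ⟨h2, h3, h4, h5⟩ := hP k A x hx
      constructor
      · intro h6
        rw [h6] at h2 h3
        exact ⟨by simpa using h2.symm, by simpa using h3.symm⟩
      · rintro ⟨h6, h7⟩
        rw [h6] at h2
        rw [h7] at h3
        have h8 : wv x (w k) 0 0 = 1 := hu.mul_left_cancel (by rw [h2, mul_one])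
        have h9 : wv x (w k) 0 1 = 0 := (hu.mul_right_eq_zero).1 h3
        ext a b
        fin_cases a <;> fin_cases b <;> simp [h8, h9, h4, h5]
    constructor
    · rintro ⟨⟨h2, h3⟩, _⟩
      exact ⟨h2, fun k => ((hh h2 k).1 (h3 k)).1, fun k => ((hh h2 k).1 (h3 k)).2⟩
    · rintro ⟨h2, h3, h4⟩
      exact ⟨⟨h2, fun k => (hh h2 k).2 ⟨h3 k, h4 k⟩⟩, isUnit_one⟩
  rw [← hG.gl_one]
  refine (hG.gl_iso (E := relations w) (p := 1)
    (E' := LS ((Finset.univ.image fun k => r k - tp n ^ K k : Finset _) :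
        Set (MvPolynomial (Fin n) ℤ)) P) (p' := rename Sum.inl (tp n))
    (fun A _ x => Sum.elim (fun i => x (i, 0)) (fun i => x (i, 1)))
    (fun A _ y q => ![y (Sum.inl q.1), y (Sum.inr q.1), Ring.inverse (y (Sum.inl q.1))] q.2)
    ?_ ?_ ?_ ?_ ?_ ?_).2 h1
  · rintro A B _ _ φ x _ (j | j) <;> rfl
  · rintro A B _ _ φ y hy ⟨i, a⟩
    rw [key] at hy
    fin_cases a
    · rfl
    · rfl
    · exact map_inv_of_unit φ (hy.1 i)
  · intro A _ x hx
    rw [key'] at hx
    rw [key]
    exact ⟨fun i => IsUnit.of_mul_eq_one _ (hx.1 i), hx.2⟩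
  · intro A _ y hy
    rw [key] at hy
    rw [key']
    exact ⟨fun i => Ring.mul_inverse_cancel _ (hy.1 i), hy.2⟩
  · intro A _ x hx
    rw [key'] at hx
    funext q
    obtain ⟨i, a⟩ := q
    fin_cases a
    · rfl
    · rfl
    · exact (eq_inv_of_mul (by rw [mul_comm]; exact hx.1 i)).symm
  · intro A _ y _
    funext j
    rcases j with j | j <;> rfl

end

end Pool.Agent.OR
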