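import Pool.Agent.OR.Up
import Pool.Agent.OR.Down
import Pool.Agent.Helper45.RM.Main

/-!
# One-relator groups and the affine group of the line: both questions
-/

set_option autoImplicit false

open AlgebraicGeometry CategoryTheory TopologicalSpace MvPolynomial
open Pool.Agent.Helper81.CP Pool.Agent.Helper81.HG Pool.Agent.Helper45.RM

namespace Pool.Agent.OR

universe u

lemma isFT_homAff (N n : ℕ) {ι : Type} (w : ι → List (Fin n × Bool)) : IsFT (HomAff N n w) :=
  isFT_zero _ _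

section

variable {G : Scheme.{0} → Prop} (hG : SG G) {N n : ℕ}

include hG

lemma hyp_oneRelator (hS : Sem (rg G)) {m : ℕ} {K : ℕ} (h : CC G (OneRelator N (m + 2) K)) :
    HypG (md (rg G) N) (m + 2) :=
  hyp_of_one (hG.rg.mod N) (Sem.mod hG.rg hS N) fun k v hk hv =>
    (gz hG _).2 (h _ ⟨k, v, hk, hv, rfl⟩)

lemma cc_finitelyPresented (hH : HypG (md (rg G) N) n) : CC G (FinitelyPresented N n) := by
  rintro _ ⟨k, w, rfl⟩
  exact (gz hG _).1 (gs_relations (hG.rg.mod N) hH w)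

end

theorem main (N n K : ℕ) (hn : 2 ≤ n) :
    Controls.{u} (OneRelator N n K) (FibreDimLT N n) ∧
    Controls.{u} (OneRelator N n K) (FinitelyPresented N n) ∧
    Controls.{u} (FibreDimLT N n) (FinitelyPresented N n) := by
  obtain ⟨m, rfl⟩ : ∃ m, n = m + 2 := ⟨n - 2, by omega⟩
  refine ⟨?_, ?_, ?_⟩
  · exact controls_of_ctl (fun X hX => isFT_of_zmod hX.1)
      (cc_fibreDim (sg_ctl _) (hyp_oneRelator (sg_ctl _) (sem_ctl _) (cc_self _)))
  · refine controls_of_ctl ?_ (cc_finitelyPresented (sg_ctl _)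
      (hyp_oneRelator (sg_ctl _) (sem_ctl _) (cc_self _)))
    rintro _ ⟨k, w, rfl⟩
    exact isFT_homAff _ _ _
  · refine controls_of_ctl ?_ (cc_finitelyPresented (sg_ctl _)
      (hyp_fibreDim (sg_ctl _) (by omega) (cc_self _)))
    rintro _ ⟨k, w, rfl⟩
    exact isFT_homAff _ _ _

lemma oneRelator_subset (N n K : ℕ) : OneRelator N n K ⊆ FinitelyPresented N n := by
  rintro _ ⟨k, v, _, _, rfl⟩
  generalize (List.replicate k v).flatten = w
  refine ⟨1, fun _ => w, ?_⟩
  have h : relations (fun _ : Unit => w) = relations (fun _ : Fin 1 => w) := by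
    ext f
    constructor
    · rintro (h | ⟨_, r, s, h⟩)
      · exact Or.inl h
      · exact Or.inr ⟨0, r, s, h⟩
    · rintro (h | ⟨_, r, s, h⟩)
      · exact Or.inl h
      · exact Or.inr ⟨(), r, s, h⟩
  rw [HomAff, HomAff, h]

lemma controls_of_subset {𝒞 𝒞' : Set Scheme.{0}} (h : 𝒞 ⊆ 𝒞') : Controls.{u} 𝒞' 𝒞 := by
  intro X hX
  exact ⟨{X}, Set.finite_singleton X, by simpa using h hX, fun hY => hY X rfl,
    fun H _ hY => hY X rfl⟩

theorem main_all (N n K : ℕ) (hn : 2 ≤ n) :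
    ∀ 𝒞 ∈ ({OneRelator N n K, FinitelyPresented N n, FibreDimLT N n} : Set (Set Scheme.{0})),
      ∀ 𝒞' ∈ ({OneRelator N n K, FinitelyPresented N n, FibreDimLT N n} : Set (Set Scheme.{0})),
      Controls.{u} 𝒞' 𝒞 := by
  obtain ⟨h1, h2, h3⟩ := main.{u} N n K hn
  have hs := oneRelator_subset N n K
  have h4 : Controls.{u} (FibreDimLT N n) (OneRelator N n K) := fun X hX => h3 X (hs hX)
  have h5 : Controls.{u} (FinitelyPresented N n) (FibreDimLT N n) := by
    intro X hX
    obtain ⟨F, hF, hF', h, h'⟩ := h1 X hX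
    exact ⟨F, hF, hF'.trans hs, h, h'⟩
  rintro 𝒞 (rfl | rfl | rfl) 𝒞' (rfl | rfl | rfl)
  · exact controls_of_subset subset_rfl
  · exact controls_of_subset hs
  · exact h4
  · exact h2
  · exact controls_of_subset subset_rfl
  · exact h3
  · exact h1
  · exact h5
  · exact controls_of_subset subset_rfl

theorem exists_fibreDim_two (N : ℕ) (X : Scheme.{0})
    (h : ∃ f : X ⟶ Spec (CommRingCat.of (ZMod N)), LocallyOfFiniteType f ∧ QuasiCompact f) :
    ∃ n, 2 ≤ n ∧ X ∈ FibreDimLT N n := by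
  obtain ⟨n, h1, h2⟩ := exists_fibreDim N X h
  exact ⟨n + 2, by omega, h1, fun x => (h2 x).trans_le (by exact_mod_cast Nat.le_add_right n 2)⟩

end Pool.Agent.OR
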