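import Pool.Agent.OR.Word

/-!
# Descent along the line without two points
-/

set_option autoImplicit false

open MvPolynomial
open Pool.Agent.Helper81.CP Pool.Agent.Helper81.HG Pool.Agent.Helper45.RM

namespace Pool.Agent.OR

section

variable {Q : ∀ (R : Type) [CommRing R], ℤ → Prop} (hQ : RingCP Q) {σ : Type} [Finite σ]
  (U : Set (MvPolynomial σ ℤ))

include hQ

lemma low_zero : Low Q U 0 (insert (X none : MvPolynomial (Option σ) ℤ)
    (insert (X none * (X none - 1)) (lft U))) := by
  refine Low.congr (E := U) (fun s => ?_) low_self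
  refine hQ.qs_iso (fun A _ x i => x (some i)) (fun A _ y o => o.elim 0 y) ?_ ?_ ?_ ?_ ?_ ?_ s
  · intro A B _ _ φ x _ j; rfl
  · intro A B _ _ φ y _ o
    rcases o with _ | i
    · exact map_zero φ
    · rfl
  · intro A _ x hx
    rw [Pt.insert_iff, Pt.insert_iff, Pt.lft_iff] at hx
    exact hx.2.2
  · intro A _ y hy
    rw [Pt.insert_iff, Pt.insert_iff, Pt.lft_iff]
    exact ⟨by simp, by simp, hy⟩
  · intro A _ x hx
    rw [Pt.insert_iff, ev_X] at hx
    funext o
    rcases o with _ | i
    · exact hx.1.symm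
    · rfl
  · intro A _ y _; rfl

lemma low_one : Low Q U 0 (dop (X none : MvPolynomial (Option σ) ℤ)
    (insert (X none * (X none - 1)) (lft U))) := by
  have key : ∀ (A : Type) [CommRing A] (x : Option (Option σ) → A),
      Pt (dop (X none : MvPolynomial (Option σ) ℤ) (insert (X none * (X none - 1)) (lft U))) x ↔
        x none = 1 ∧ x (some none) = 1 ∧ Pt U (fun i => x (some (some i))) := by
    intro A _ x
    rw [Pt.dop_iff, Pt.insert_iff, Pt.lft_iff, map_mul, map_sub, ev_X, map_one]
    constructor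
    · rintro ⟨h1, h2, h3⟩
      have h4 : x (some none) = 1 := by linear_combination x none * h2 - (x (some none) - 1) * h1
      rw [h4, mul_one] at h1
      exact ⟨h1, h4, h3⟩
    · rintro ⟨h1, h2, h3⟩
      exact ⟨by rw [h1, h2, mul_one], by rw [h2]; ring, h3⟩
  refine Low.congr (E := U) (fun s => ?_) low_self
  refine hQ.qs_iso (fun A _ x i => x (some (some i)))
    (fun A _ y o => o.elim 1 (fun o' => o'.elim 1 y)) ?_ ?_ ?_ ?_ ?_ ?_ s
  · intro A B _ _ φ x _ j; rfl
  · intro A B _ _ φ y _ o
    rcases o with _ | _ | i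
    · exact map_one φ
    · exact map_one φ
    · rfl
  · intro A _ x hx
    exact ((key A x).1 hx).2.2
  · intro A _ y hy
    exact (key A _).2 ⟨rfl, rfl, hy⟩
  · intro A _ x hx
    obtain ⟨h1, h2, _⟩ := (key A x).1 hx
    funext o
    rcases o with _ | _ | i
    · exact h1.symm
    · exact h2.symm
    · rfl
  · intro A _ y _; rfl

lemma lead_pun : Lead Q U 1 (dop (X none * (X none - 1)) (lft U)) := by
  have h1 : Lead Q U (0 + 1) (lft U) := lead_line hQ lead_self
  rw [zero_add] at h1
  refine h1.dop hQ ?_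
  rw [sub_self]
  exact Low.glue hQ (low_zero hQ U) (low_one hQ U)

end

/-- **Descent along the line without the points `0` and `1`.** -/
theorem gs_pun {G : ∀ (R : Type) [CommRing R], Prop} (hS : Sem G) {σ : Type} [Finite σ]
    {U : Set (MvPolynomial σ ℤ)} (h : GS G (dop (X none * (X none - 1)) (lft U))) : GS G U :=
  hS _ _ _ _ _ _ (fun _ hQ h1 _ => good_of_lead hQ (lead_pun hQ U) h1) h h

end Pool.Agent.OR
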