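import Pool.Agent.OR.Pun

/-!
# From one-relator groups to closed subsets of the torus
-/

set_option autoImplicit false

open MvPolynomial
open Pool.Agent.Helper81.CP Pool.Agent.Helper81.HG Pool.Agent.Helper45.RM

namespace Pool.Agent.OR

/-- the product of the variables -/
noncomputable def tp (n : ℕ) : MvPolynomial (Fin n) ℤ := ∏ i, X i

lemma ev_tp {n : ℕ} {A : Type} [CommRing A] (x : Fin n → A) : ev x (tp n) = ∏ i, x i := by
  simp [tp]

lemma unit_tp {n : ℕ} {A : Type} [CommRing A] {x : Fin n → A} :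
    IsUnit (ev x (tp n)) ↔ ∀ i, IsUnit (x i) := by
  rw [ev_tp, IsUnit.prod_univ_iff]

section

variable {m : ℕ}

/-- polynomials in the first variables -/
noncomputable abbrev rl (m : ℕ) : MvPolynomial (Fin (m + 2)) ℤ →ₐ[ℤ]
    MvPolynomial (Fin (m + 2) ⊕ Fin (m + 2)) ℤ := rename Sum.inl

/-- the translation which is the value of the commutator of the first two generators -/
noncomputable def Dp (m : ℕ) : MvPolynomial (Fin (m + 2) ⊕ Fin (m + 2)) ℤ :=
  (X (Sum.inl 0) - 1) * X (Sum.inr 1) - (X (Sum.inl 1) - 1) * X (Sum.inr 0)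

lemma ev_dp {A : Type} [CommRing A] (x : Fin (m + 2) ⊕ Fin (m + 2) → A) : ev x (Dp m) =
    (x (Sum.inl 0) - 1) * x (Sum.inr 1) - (x (Sum.inl 1) - 1) * x (Sum.inr 0) := by
  simp [Dp]

variable {G : ∀ (R : Type) [CommRing R], Prop} (hG : RG G)

/-- the class contains the homomorphisms from the groups with one relation, a power -/
def OneG (G : ∀ (R : Type) [CommRing R], Prop) (n K : ℕ) : Prop :=
  ∀ (k : ℕ) (v : List (Fin n × Bool)), K ≤ k → FreeGroup.mk v ∈ commutator (FreeGroup (Fin n)) →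
    GS G (relations fun _ : Unit => (List.replicate k v).flatten)

include hG

lemma go_word {p : MvPolynomial (Fin (m + 2)) ℤ} {w : List (Fin (m + 2) × Bool)} (hp : Rz p w)
    (h1 : GS G (relations fun _ : Unit => w)) : GO G {rl m p * Dp m} (rl m (tp (m + 2))) := by
  rw [← hG.gl_one] at h1
  have key : ∀ (A : Type) [CommRing A] (x : Fin (m + 2) × Fin 3 → A),
      Lc (relations fun _ : Unit => w) 1 x ↔ (∀ i, x (i, 0) * x (i, 2) = 1) ∧
        ev (fun i => x (i, 0)) p * dd x = 0 := by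
    intro A _ x
    unfold Lc
    rw [pt_relations, map_one]
    constructor
    · rintro ⟨⟨h2, h3⟩, _⟩
      refine ⟨h2, ?_⟩
      have h4 := h3 ()
      rw [hp.2 A x h2] at h4
      have h5 := congrFun (congrFun h4 0) 1
      simpa using h5
    · rintro ⟨h2, h3⟩
      refine ⟨⟨h2, fun _ => ?_⟩, isUnit_one⟩
      rw [hp.2 A x h2, h3]
      ext r s
      fin_cases r <;> fin_cases s <;> simp
  have key' : ∀ (A : Type) [CommRing A] (y : Fin (m + 2) ⊕ Fin (m + 2) → A),
      Lc {rl m p * Dp m} (rl m (tp (m + 2))) y ↔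
        (∀ i, IsUnit (y (Sum.inl i))) ∧ ev (fun i => y (Sum.inl i)) p *
          ((y (Sum.inl 0) - 1) * y (Sum.inr 1) - (y (Sum.inl 1) - 1) * y (Sum.inr 0)) = 0 := by
    intro A _ y
    unfold Lc Pt
    simp only [Set.mem_singleton_iff, forall_eq, map_mul, ev_rename, ev_dp, unit_tp]
    tauto
  refine (hG.gl_iso (E := relations fun _ : Unit => w) (p := 1)
    (E' := {rl m p * Dp m}) (p' := rl m (tp (m + 2)))
    (fun A _ x => Sum.elim (fun i => x (i, 0)) (fun i => x (i, 1)))
    (fun A _ y q => ![y (Sum.inl q.1), y (Sum.inr q.1), Ring.inverse (y (Sum.inl q.1))] q.2)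
    ?_ ?_ ?_ ?_ ?_ ?_).1 h1
  · rintro A B _ _ φ x _ (j | j) <;> rfl
  · rintro A B _ _ φ y hy ⟨i, r⟩
    rw [key'] at hy
    fin_cases r
    · rfl
    · rfl
    · exact map_inv_of_unit φ (hy.1 i)
  · intro A _ x hx
    rw [key] at hx
    rw [key']
    exact ⟨fun i => IsUnit.of_mul_eq_one _ (hx.1 i), hx.2⟩
  · intro A _ y hy
    rw [key'] at hy
    rw [key]
    exact ⟨fun i => Ring.mul_inverse_cancel _ (hy.1 i), hy.2⟩
  · intro A _ x hx
    rw [key] at hx
    funext q
    obtain ⟨i, r⟩ := q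
    fin_cases r
    · rfl
    · rfl
    · exact (eq_inv_of_mul (by rw [mul_comm]; exact hx.1 i)).symm
  · intro A _ y _
    funext j
    rcases j with j | j <;> rfl

variable {K : ℕ}

lemma go_pol (h : OneG G (m + 2) K) (p : MvPolynomial (Fin (m + 2)) ℤ) :
    GO G {rl m p * Dp m} (rl m (tp (m + 2))) := by
  obtain ⟨w, hw⟩ := exists_rz p
  have hk : ∀ k, K ≤ k → GO G {(k : MvPolynomial (Fin (m + 2) ⊕ Fin (m + 2)) ℤ) *
      (rl m p * Dp m)} (rl m (tp (m + 2))) := by
    intro k hk
    have := go_word hG (hw.pow k) (h k w hk hw.1)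
    rw [map_mul, map_natCast, mul_assoc] at this
    exact this
  -- the powers `a = K + 1`, `b = K + 2` and `a b` of the relation
  set f := rl m p * Dp m with hf
  set t := rl m (tp (m + 2)) with ht
  have ha := hk (K + 1) (by omega)
  have hb := hk (K + 2) (by omega)
  have hab := hk ((K + 1) * (K + 2)) (by nlinarith)
  -- where `a b f = 0` and `a f` is invertible
  have h1 : GO G (insert (((K + 1 : ℕ) : MvPolynomial (Fin (m + 2) ⊕ Fin (m + 2)) ℤ) * f)
      {(((K + 1) * (K + 2) : ℕ) : MvPolynomial (Fin (m + 2) ⊕ Fin (m + 2)) ℤ) * f}) t := by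
    refine (hG.gl_congr fun A _ x => ?_).1 ha
    unfold Lc
    rw [Pt.insert_iff]
    unfold Pt
    simp only [Set.mem_singleton_iff, forall_eq, map_mul, map_natCast, Nat.cast_mul]
    constructor
    · rintro ⟨h4, h5⟩
      refine ⟨⟨h4, ?_⟩, h5⟩
      linear_combination ((K + 2 : ℕ) : A) * h4
    · rintro ⟨⟨h4, _⟩, h5⟩
      exact ⟨h4, h5⟩
  have h2 := hG.gl_opn _ hab h1
  have h3 : GO G {((K + 2 : ℕ) : MvPolynomial (Fin (m + 2) ⊕ Fin (m + 2)) ℤ) * f}
      (t * (((K + 1 : ℕ) : MvPolynomial (Fin (m + 2) ⊕ Fin (m + 2)) ℤ) * f)) := by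
    refine (hG.gl_congr fun A _ x => ?_).1 h2
    unfold Lc Pt
    simp only [Set.mem_singleton_iff, forall_eq, map_mul, map_natCast, Nat.cast_mul,
      IsUnit.mul_iff]
    constructor
    · rintro ⟨h4, h5, h6, h7⟩
      refine ⟨?_, h5, h6, h7⟩
      have h8 : ((K + 1 : ℕ) : A) * (((K + 2 : ℕ) : A) * ev x f) = 0 := by
        linear_combination h4
      exact (h6.mul_right_eq_zero).1 h8
    · rintro ⟨h4, h5, h6, h7⟩
      refine ⟨?_, h5, h6, h7⟩
      linear_combination ((K + 1 : ℕ) : A) * h4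
  refine (hG.gl_congr fun A _ x => ?_).1 (hG.gl_closed _ hb h3)
  unfold Lc
  rw [Pt.insert_iff]
  unfold Pt
  simp only [Set.mem_singleton_iff, forall_eq, map_mul, map_natCast]
  refine and_congr_left fun _ => ⟨?_, ?_⟩
  · rintro ⟨h4, h5⟩
    push_cast at h4 h5
    linear_combination h5 - h4
  · intro h4
    rw [h4]
    simp

lemma go_unit (h : OneG G (m + 2) K) (p : MvPolynomial (Fin (m + 2)) ℤ) :
    GO G {rl m p} (rl m (tp (m + 2)) * Dp m) := by
  have h1 := go_pol hG h p
  have h2 := go_pol hG h 1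
  have h3 : GO G (insert (Dp m) {rl m p * Dp m}) (rl m (tp (m + 2))) := by
    refine (hG.gl_congr fun A _ x => ?_).1 h2
    unfold Lc
    rw [Pt.insert_iff]
    unfold Pt
    simp only [Set.mem_singleton_iff, forall_eq, map_mul, map_one, one_mul]
    constructor
    · rintro ⟨h4, h5⟩
      exact ⟨⟨h4, by rw [h4, mul_zero]⟩, h5⟩
    · rintro ⟨⟨h4, _⟩, h5⟩
      exact ⟨h4, h5⟩
  refine (hG.gl_congr fun A _ x => ?_).1 (hG.gl_opn (Dp m) h1 h3)
  unfold Lc Pt
  simp only [Set.mem_singleton_iff, forall_eq, map_mul, IsUnit.mul_iff]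
  constructor
  · rintro ⟨h4, h5, h6⟩
    exact ⟨(h6.mul_left_eq_zero).1 h4, h5, h6⟩
  · rintro ⟨h4, h5, h6⟩
    exact ⟨by rw [h4, zero_mul], h5, h6⟩

open scoped Classical in
lemma go_closed (h : OneG G (m + 2) K) (S : Finset (MvPolynomial (Fin (m + 2)) ℤ)) :
    ∀ g : MvPolynomial (Fin (m + 2)) ℤ,
      GO G (rl m '' (S : Set (MvPolynomial (Fin (m + 2)) ℤ)))
        (rl m (tp (m + 2) * g) * Dp m) := by
  induction S using Finset.induction_on with
  | empty =>
    intro g
    have h0 : GO G (∅ : Set (MvPolynomial (Fin (m + 2) ⊕ Fin (m + 2)) ℤ))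
        (rl m (tp (m + 2)) * Dp m) := by
      refine (hG.gl_congr fun A _ x => ?_).1 (go_unit hG h 0)
      unfold Lc Pt
      simp
    have h1 : GO G (insert (rl m g) (∅ : Set (MvPolynomial (Fin (m + 2) ⊕
        Fin (m + 2)) ℤ))) (rl m (tp (m + 2)) * Dp m) := by
      rw [insert_empty_eq]
      exact go_unit hG h g
    refine (hG.gl_congr fun A _ x => ?_).1 (hG.gl_opn _ h0 h1)
    unfold Lc
    rw [Finset.coe_empty, Set.image_empty]
    simp only [map_mul, IsUnit.mul_iff]
    tauto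
  | insert f S hf ih =>
    intro g
    rw [Finset.coe_insert, Set.image_insert_eq]
    refine hG.gl_closed _ (ih g) ((hG.gl_congr fun A _ x => ?_).1 (ih (g * f)))
    unfold Lc
    simp only [map_mul, IsUnit.mul_iff]
    tauto

/-- the first coordinate is not one -/
lemma go_first (h : OneG G (m + 2) K) (S : Finset (MvPolynomial (Fin (m + 2)) ℤ))
    (g : MvPolynomial (Fin (m + 2)) ℤ) :
    GO G (S : Set (MvPolynomial (Fin (m + 2)) ℤ)) (tp (m + 2) * g * (X 0 - 1)) := by
  have h1 := go_closed hG h S (g * (X 0 - 1))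
  have key : ∀ (A : Type) [CommRing A] (y : Fin (m + 2) ⊕ Fin (m + 2) → A),
      Lc (rl m '' (S : Set (MvPolynomial (Fin (m + 2)) ℤ)))
        (rl m (tp (m + 2) * (g * (X 0 - 1))) * Dp m) y ↔
      Lc (S : Set (MvPolynomial (Fin (m + 2)) ℤ)) (tp (m + 2) * g * (X 0 - 1))
        (fun i => y (Sum.inl i)) ∧
      IsUnit ((y (Sum.inl 0) - 1) * y (Sum.inr 1) - (y (Sum.inl 1) - 1) * y (Sum.inr 0)) := by
    intro A _ y
    unfold Lc Pt
    simp only [Set.forall_mem_image, ev_rename, map_mul, ev_dp, IsUnit.mul_iff]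
    tauto
  have key' : ∀ (A : Type) [CommRing A] (y : Fin (m + 2) ⊕ Fin (m + 2) → A),
      Lc (rl m '' (S : Set (MvPolynomial (Fin (m + 2)) ℤ)))
        (rl m (tp (m + 2) * g * (X 0 - 1)) * X (Sum.inr 1)) y ↔
      Lc (S : Set (MvPolynomial (Fin (m + 2)) ℤ)) (tp (m + 2) * g * (X 0 - 1))
        (fun i => y (Sum.inl i)) ∧ IsUnit (y (Sum.inr 1)) := by
    intro A _ y
    unfold Lc Pt
    simp only [Set.forall_mem_image, ev_rename, map_mul, ev_X, IsUnit.mul_iff]
    tauto
  have hu : ∀ (A : Type) [CommRing A] (x : Fin (m + 2) → A),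
      Lc (S : Set (MvPolynomial (Fin (m + 2)) ℤ)) (tp (m + 2) * g * (X 0 - 1)) x →
      IsUnit (x 0 - 1) := by
    intro A _ x hx
    have := hx.2
    rw [map_mul, IsUnit.mul_iff, map_sub, ev_X, map_one] at this
    exact this.2
  have h2 : GO G (rl m '' (S : Set (MvPolynomial (Fin (m + 2)) ℤ)))
      (rl m (tp (m + 2) * g * (X 0 - 1)) * X (Sum.inr 1)) := by
    refine (hG.gl_iso
      (E := rl m '' (S : Set (MvPolynomial (Fin (m + 2)) ℤ)))
      (p := rl m (tp (m + 2) * (g * (X 0 - 1))) * Dp m)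
      (E' := rl m '' (S : Set (MvPolynomial (Fin (m + 2)) ℤ)))
      (p' := rl m (tp (m + 2) * g * (X 0 - 1)) * X (Sum.inr 1))
      (fun A _ x => Function.update x (Sum.inr 1)
        ((x (Sum.inl 0) - 1) * x (Sum.inr 1) - (x (Sum.inl 1) - 1) * x (Sum.inr 0)))
      (fun A _ y => Function.update y (Sum.inr 1)
        (Ring.inverse (y (Sum.inl 0) - 1) *
          (y (Sum.inr 1) + (y (Sum.inl 1) - 1) * y (Sum.inr 0))))
      ?_ ?_ ?_ ?_ ?_ ?_).1 h1
    · intro A B _ _ φ x _ j
      rcases eq_or_ne j (Sum.inr 1) with rfl | hj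
      · simp
      · simp [hj]
    · intro A B _ _ φ y hy j
      rcases eq_or_ne j (Sum.inr 1) with rfl | hj
      · have h3 := hu A _ ((key' A y).1 hy).1
        simp [map_inv_of_unit φ h3]
      · simp [hj]
    · intro A _ x hx
      rw [key] at hx
      rw [key']
      simpa using hx
    · intro A _ y hy
      rw [key'] at hy
      rw [key]
      have h3 := hu A _ hy.1
      refine ⟨by simpa using hy.1, ?_⟩
      have h4 : (y (Sum.inl 0) - 1) * (Ring.inverse (y (Sum.inl 0) - 1) *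
          (y (Sum.inr 1) + (y (Sum.inl 1) - 1) * y (Sum.inr 0))) -
          (y (Sum.inl 1) - 1) * y (Sum.inr 0) = y (Sum.inr 1) := by
        rw [← mul_assoc, Ring.mul_inverse_cancel _ h3]
        ring
      simpa [h4] using hy.2
    · intro A _ x hx
      rw [key] at hx
      have h3 := hu A _ hx.1
      funext j
      rcases eq_or_ne j (Sum.inr 1) with rfl | hj
      · have h4 : Ring.inverse (x (Sum.inl 0) - 1) * ((x (Sum.inl 0) - 1) * x (Sum.inr 1) -
            (x (Sum.inl 1) - 1) * x (Sum.inr 0) + (x (Sum.inl 1) - 1) * x (Sum.inr 0)) =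
            x (Sum.inr 1) := by
          rw [sub_add_cancel, ← mul_assoc, Ring.inverse_mul_cancel _ h3, one_mul]
        simpa using h4
      · simp [hj]
    · intro A _ y hy
      rw [key'] at hy
      have h3 := hu A _ hy.1
      funext j
      rcases eq_or_ne j (Sum.inr 1) with rfl | hj
      · have h4 : (y (Sum.inl 0) - 1) * (Ring.inverse (y (Sum.inl 0) - 1) *
          (y (Sum.inr 1) + (y (Sum.inl 1) - 1) * y (Sum.inr 0))) -
          (y (Sum.inl 1) - 1) * y (Sum.inr 0) = y (Sum.inr 1) := by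
          rw [← mul_assoc, Ring.mul_inverse_cancel _ h3]
          ring
        simpa using h4
      · simp [hj]
  have h3 := (hG.gl_gm (E := rl m '' (S : Set (MvPolynomial (Fin (m + 2)) ℤ)))
    (p := rl m (tp (m + 2) * g * (X 0 - 1))) (Sum.inr 1) (by
      intro A _ x y hxy hx
      have : (fun i => y (Sum.inl i)) = fun i => x (Sum.inl i) := funext fun i => hxy _ (by simp)
      unfold Lc Pt at hx ⊢
      simp only [Set.forall_mem_image, ev_rename] at hx ⊢
      rw [this]
      exact hx)).1 h2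
  exact (hG.gl_emb Sum.inl Sum.inl_injective _ _).1 h3

/-- the first coordinate is one, the second is not -/
lemma go_second (h : OneG G (m + 2) K) (S : Finset (MvPolynomial (Fin (m + 2)) ℤ))
    (g : MvPolynomial (Fin (m + 2)) ℤ) :
    GO G (insert (X 0 - 1) (S : Set (MvPolynomial (Fin (m + 2)) ℤ)))
      (tp (m + 2) * g * (X 1 - 1)) := by
  classical
  have h1 := go_closed hG h (insert (X 0 - 1) S) (g * (X 1 - 1))
  rw [Finset.coe_insert] at h1
  have key : ∀ (A : Type) [CommRing A] (y : Fin (m + 2) ⊕ Fin (m + 2) → A),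
      Lc (rl m '' (insert (X 0 - 1) (S : Set (MvPolynomial (Fin (m + 2)) ℤ))))
        (rl m (tp (m + 2) * (g * (X 1 - 1))) * Dp m) y ↔
      Lc (insert (X 0 - 1) (S : Set (MvPolynomial (Fin (m + 2)) ℤ)))
        (tp (m + 2) * g * (X 1 - 1)) (fun i => y (Sum.inl i)) ∧
      IsUnit ((y (Sum.inl 0) - 1) * y (Sum.inr 1) - (y (Sum.inl 1) - 1) * y (Sum.inr 0)) := by
    intro A _ y
    unfold Lc Pt
    simp only [Set.forall_mem_image, ev_rename, map_mul, ev_dp, IsUnit.mul_iff]
    tauto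
  have key' : ∀ (A : Type) [CommRing A] (y : Fin (m + 2) ⊕ Fin (m + 2) → A),
      Lc (rl m '' (insert (X 0 - 1) (S : Set (MvPolynomial (Fin (m + 2)) ℤ))))
        (rl m (tp (m + 2) * g * (X 1 - 1)) * X (Sum.inr 0)) y ↔
      Lc (insert (X 0 - 1) (S : Set (MvPolynomial (Fin (m + 2)) ℤ)))
        (tp (m + 2) * g * (X 1 - 1)) (fun i => y (Sum.inl i)) ∧ IsUnit (y (Sum.inr 0)) := by
    intro A _ y
    unfold Lc Pt
    simp only [Set.forall_mem_image, ev_rename, map_mul, ev_X, IsUnit.mul_iff]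
    tauto
  have hu : ∀ (A : Type) [CommRing A] (x : Fin (m + 2) → A),
      Lc (insert (X 0 - 1) (S : Set (MvPolynomial (Fin (m + 2)) ℤ)))
        (tp (m + 2) * g * (X 1 - 1)) x → IsUnit (x 1 - 1) ∧ x 0 = 1 := by
    intro A _ x hx
    have h2 := hx.2
    rw [map_mul, IsUnit.mul_iff, map_sub, ev_X, map_one] at h2
    have h3 := hx.1 _ (Set.mem_insert _ _)
    rw [map_sub, ev_X, map_one, sub_eq_zero] at h3
    exact ⟨h2.2, h3⟩
  have h2 : GO G (rl m '' (insert (X 0 - 1)
      (S : Set (MvPolynomial (Fin (m + 2)) ℤ))))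
      (rl m (tp (m + 2) * g * (X 1 - 1)) * X (Sum.inr 0)) := by
    refine (hG.gl_iso
      (E := rl m '' (insert (X 0 - 1) (S : Set (MvPolynomial (Fin (m + 2)) ℤ))))
      (p := rl m (tp (m + 2) * (g * (X 1 - 1))) * Dp m)
      (E' := rl m '' (insert (X 0 - 1) (S : Set (MvPolynomial (Fin (m + 2)) ℤ))))
      (p' := rl m (tp (m + 2) * g * (X 1 - 1)) * X (Sum.inr 0))
      (fun A _ x => Function.update x (Sum.inr 0) ((x (Sum.inl 1) - 1) * x (Sum.inr 0)))
      (fun A _ y => Function.update y (Sum.inr 0)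
        (Ring.inverse (y (Sum.inl 1) - 1) * y (Sum.inr 0)))
      ?_ ?_ ?_ ?_ ?_ ?_).1 h1
    · intro A B _ _ φ x _ j
      rcases eq_or_ne j (Sum.inr 0) with rfl | hj
      · simp
      · simp [hj]
    · intro A B _ _ φ y hy j
      rcases eq_or_ne j (Sum.inr 0) with rfl | hj
      · have h3 := (hu A _ ((key' A y).1 hy).1).1
        simp [map_inv_of_unit φ h3]
      · simp [hj]
    · intro A _ x hx
      rw [key] at hx
      rw [key']
      have h4 := (hu A _ hx.1).2
      refine ⟨by simpa using hx.1, ?_⟩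
      have h5 := hx.2
      rw [show x (Sum.inl 0) = 1 from h4, sub_self, zero_mul, zero_sub] at h5
      simpa using h5.neg
    · intro A _ y hy
      rw [key'] at hy
      rw [key]
      have h3 := hu A _ hy.1
      refine ⟨by simpa using hy.1, ?_⟩
      have h4 : (y (Sum.inl 1) - 1) * (Ring.inverse (y (Sum.inl 1) - 1) * y (Sum.inr 0)) =
          y (Sum.inr 0) := by
        rw [← mul_assoc, Ring.mul_inverse_cancel _ h3.1, one_mul]
      have h5 : y (Sum.inl 0) = 1 := h3.2
      simpa [h4, h5] using hy.2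
    · intro A _ x hx
      rw [key] at hx
      have h3 := (hu A _ hx.1).1
      funext j
      rcases eq_or_ne j (Sum.inr 0) with rfl | hj
      · have h4 : Ring.inverse (x (Sum.inl 1) - 1) * ((x (Sum.inl 1) - 1) * x (Sum.inr 0)) =
            x (Sum.inr 0) := by
          rw [← mul_assoc, Ring.inverse_mul_cancel _ h3, one_mul]
        simpa using h4
      · simp [hj]
    · intro A _ y hy
      rw [key'] at hy
      have h3 := (hu A _ hy.1).1
      funext j
      rcases eq_or_ne j (Sum.inr 0) with rfl | hj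
      · have h4 : (y (Sum.inl 1) - 1) * (Ring.inverse (y (Sum.inl 1) - 1) * y (Sum.inr 0)) =
            y (Sum.inr 0) := by
          rw [← mul_assoc, Ring.mul_inverse_cancel _ h3, one_mul]
        simpa using h4
      · simp [hj]
  have h3 := (hG.gl_gm (E := rl m '' (insert (X 0 - 1)
      (S : Set (MvPolynomial (Fin (m + 2)) ℤ))))
    (p := rl m (tp (m + 2) * g * (X 1 - 1))) (Sum.inr 0) (by
      intro A _ x y hxy hx
      have : (fun i => y (Sum.inl i)) = fun i => x (Sum.inl i) := funext fun i => hxy _ (by simp)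
      unfold Lc Pt at hx ⊢
      simp only [Set.forall_mem_image, ev_rename] at hx ⊢
      rw [this]
      exact hx)).1 h2
  exact (hG.gl_emb Sum.inl Sum.inl_injective _ _).1 h3

end

end Pool.Agent.OR
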