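import Pool.Agent.OR.Tor

/-!
# From one-relator groups to hypersurfaces
-/

set_option autoImplicit false

open MvPolynomial
open Pool.Agent.Helper81.CP Pool.Agent.Helper81.HG Pool.Agent.Helper45.RM

namespace Pool.Agent.OR

section

variable {m K : ℕ} {G : ∀ (R : Type) [CommRing R], Prop} (hG : RG G)

include hG

/-- closed subsets of the torus of dimension `m`, from the torus of dimension `m + 2` -/
lemma go_small (hS : Sem G) (h : OneG G (m + 2) K) (S : Finset (MvPolynomial (Fin m) ℤ))
    (g : MvPolynomial (Fin m) ℤ) :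
    GO G (S : Set (MvPolynomial (Fin m) ℤ)) (tp m * g) := by
  classical
  let j : Fin m → Fin (m + 2) := fun i => i.succ.succ
  have h1 := go_first hG h (S.image (rename j)) (rename j g)
  rw [Finset.coe_image] at h1
  have ht : ∀ (A : Type) [CommRing A] (x : Fin (m + 2) → A), ev x (tp (m + 2)) =
      x 0 * (x 1 * ev (fun i => x (j i)) (tp m)) := by
    intro A _ x
    rw [ev_tp, ev_tp, Fin.prod_univ_succ, Fin.prod_univ_succ]
    rfl
  -- the second coordinate is free
  have h2 : GO G (rename j '' (S : Set (MvPolynomial (Fin m) ℤ)))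
      (rename j (tp m * g) * (X 0 * (X 0 - 1)) * X 1) := by
    refine (hG.gl_congr fun A _ x => ?_).1 h1
    unfold Lc
    simp only [map_mul, ht, IsUnit.mul_iff, ev_rename, ev_X]
    tauto
  have h3 := (hG.gl_gm (E := rename j '' (S : Set (MvPolynomial (Fin m) ℤ)))
    (p := rename j (tp m * g) * (X 0 * (X 0 - 1))) 1 (by
      intro A _ x y hxy hx
      have e1 : (fun i => y (j i)) = fun i => x (j i) := funext fun i => hxy _ (by
        simp [j, Fin.ext_iff])
      have e2 : y 0 = x 0 := hxy _ (by simp)
      unfold Lc Pt at hx ⊢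
      simp only [Set.forall_mem_image, ev_rename, map_mul, map_sub, map_one, ev_X] at hx ⊢
      rw [e1, e2]
      exact hx)).1 h2
  let k : Option (Fin m) → Fin (m + 2) := fun o => o.elim 0 j
  have hk : Function.Injective k := by
    rintro (_ | a) (_ | b) hab
    · rfl
    · exact absurd hab (by simp [k, j, Fin.ext_iff])
    · exact absurd hab (by simp [k, j, Fin.ext_iff])
    · simpa [k, j, Fin.ext_iff] using hab
  have h4 : GO G (lft (S : Set (MvPolynomial (Fin m) ℤ)))
      (rename some (tp m * g) * (X none * (X none - 1))) := by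
    refine (hG.gl_emb k hk _ _).1 ((hG.gl_congr fun A _ x => ?_).1 h3)
    unfold Lc Pt lft
    simp only [Set.forall_mem_image, ev_rename, map_mul, map_sub, map_one, ev_X, rename_X]
    exact Iff.rfl
  refine gs_pun hS ((hG.gl_iso (E := lft (S : Set (MvPolynomial (Fin m) ℤ)))
    (p := rename some (tp m * g) * (X none * (X none - 1)))
    (E' := lft (dop (tp m * g) (S : Set (MvPolynomial (Fin m) ℤ))))
    (p' := X none * (X none - 1))
    (fun A _ x o => o.elim (x none) (fun o' => o'.elim
      (Ring.inverse (ev (fun i => x (some i)) (tp m * g))) (fun i => x (some i))))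
    (fun A _ y o => o.elim (y none) (fun i => y (some (some i)))) ?_ ?_ ?_ ?_ ?_ ?_).1 h4)
  · intro A B _ _ φ x hx o
    have hu : IsUnit (ev (fun i => x (some i)) (tp m * g)) := by
      have h5 := hx.2
      rw [map_mul, ev_rename, IsUnit.mul_iff] at h5
      exact h5.1
    rcases o with _ | _ | i
    · rfl
    · show φ (Ring.inverse _) = Ring.inverse _
      rw [map_inv_of_unit φ hu, ev_map]
    · rfl
  · intro A B _ _ φ y _ o
    rcases o with _ | i <;> rfl
  · intro A _ x hx
    unfold Lc at hx ⊢
    rw [Pt.lft_iff, map_mul, ev_rename, IsUnit.mul_iff] at hx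
    rw [Pt.lft_iff, Pt.dop_iff]
    refine ⟨⟨Ring.inverse_mul_cancel _ hx.2.1, hx.1⟩, ?_⟩
    simpa using hx.2.2
  · intro A _ y hy
    unfold Lc at hy ⊢
    rw [Pt.lft_iff, Pt.dop_iff] at hy
    rw [Pt.lft_iff, map_mul, ev_rename, IsUnit.mul_iff]
    refine ⟨hy.1.2, IsUnit.of_mul_eq_one_right _ hy.1.1, ?_⟩
    simpa using hy.2
  · intro A _ x _
    funext o
    rcases o with _ | i <;> rfl
  · intro A _ y hy
    unfold Lc at hy
    rw [Pt.lft_iff, Pt.dop_iff] at hy
    funext o
    rcases o with _ | _ | i
    · rfl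
    · exact (eq_inv_of_mul hy.1.1).symm
    · rfl

/-- **Closed subsets of the torus.** -/
theorem go_torus (hS : Sem G) (h : OneG G (m + 2) K) (S : Finset (MvPolynomial (Fin (m + 2)) ℤ))
    (g : MvPolynomial (Fin (m + 2)) ℤ) :
    GO G (S : Set (MvPolynomial (Fin (m + 2)) ℤ)) (tp (m + 2) * g) := by
  classical
  refine hG.gl_glue (X 0 - 1) (hG.gl_glue (X 1 - 1) ?_ (go_second hG h S g))
    (go_first hG h S g)
  let c : ∀ (A : Type) [CommRing A], (Fin m → A) → (Fin (m + 2) → A) := fun A _ y =>
    Fin.cons 1 (Fin.cons 1 y)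
  let π : MvPolynomial (Fin (m + 2)) ℤ →ₐ[ℤ] MvPolynomial (Fin m) ℤ := aeval (c _ X)
  have hπ : ∀ (A : Type) [CommRing A] (y : Fin m → A) (f : MvPolynomial (Fin (m + 2)) ℤ),
      ev y (π f) = ev (c A y) f := by
    intro A _ y f
    have h1 : (ev y).comp π.toRingHom = ev (c A y) := by
      refine MvPolynomial.ringHom_ext' (RingHom.ext_int _ _) fun i => ?_
      show ev y (π (X i)) = ev (c A y) (X i)
      rw [ev_X, aeval_X]
      refine Fin.cases ?_ (fun i => ?_) i
      · exact map_one _
      · refine Fin.cases ?_ (fun i => ?_) i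
        · exact map_one _
        · exact ev_X y i
    exact congrArg (fun φ : MvPolynomial (Fin (m + 2)) ℤ →+* A => φ f) h1
  have h1 := go_small hG hS h (S.image π) (π g)
  rw [Finset.coe_image] at h1
  have key : ∀ (A : Type) [CommRing A] (x : Fin (m + 2) → A),
      Lc (insert (X 1 - 1) (insert (X 0 - 1) (S : Set (MvPolynomial (Fin (m + 2)) ℤ))))
        (tp (m + 2) * g) x ↔ x = c A (fun i => x i.succ.succ) ∧
        Lc (S : Set (MvPolynomial (Fin (m + 2)) ℤ)) (tp (m + 2) * g) x := by
    intro A _ x
    unfold Lc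
    rw [Pt.insert_iff, Pt.insert_iff, map_sub, map_sub, ev_X, ev_X, map_one, sub_eq_zero,
      sub_eq_zero]
    constructor
    · rintro ⟨⟨h2, h3, h4⟩, h5⟩
      refine ⟨?_, h4, h5⟩
      funext i
      refine Fin.cases ?_ (fun i => ?_) i
      · exact h3
      · refine Fin.cases ?_ (fun i => ?_) i
        · exact h2
        · rfl
    · rintro ⟨h2, h4, h5⟩
      exact ⟨⟨congrFun h2 1, congrFun h2 0, h4⟩, h5⟩
  have key' : ∀ (A : Type) [CommRing A] (y : Fin m → A),
      Lc (π '' (S : Set (MvPolynomial (Fin (m + 2)) ℤ))) (tp m * π g) y ↔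
        Lc (S : Set (MvPolynomial (Fin (m + 2)) ℤ)) (tp (m + 2) * g) (c A y) := by
    intro A _ y
    have ht : ev (c A y) (tp (m + 2)) = ev y (tp m) := by
      rw [ev_tp, ev_tp, Fin.prod_univ_succ, Fin.prod_univ_succ]
      show 1 * (1 * ∏ i, y i) = _
      rw [one_mul, one_mul]
    unfold Lc Pt
    simp only [Set.forall_mem_image, hπ, map_mul, ht]
  refine (hG.gl_iso (E := π '' (S : Set (MvPolynomial (Fin (m + 2)) ℤ))) (p := tp m * π g)
    (E' := insert (X 1 - 1) (insert (X 0 - 1) (S : Set (MvPolynomial (Fin (m + 2)) ℤ))))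
    (p' := tp (m + 2) * g) c (fun A _ x i => x i.succ.succ) ?_ ?_ ?_ ?_ ?_ ?_).1 h1
  · intro A B _ _ φ y _ i
    refine Fin.cases ?_ (fun i => ?_) i
    · exact map_one φ
    · refine Fin.cases ?_ (fun i => ?_) i
      · exact map_one φ
      · rfl
  · intro A B _ _ φ x _ i; rfl
  · intro A _ y hy
    rw [key]
    exact ⟨rfl, (key' A y).1 hy⟩
  · intro A _ x hx
    rw [key] at hx
    rw [key', ← hx.1]
    exact hx.2
  · intro A _ y _; rfl
  · intro A _ x hx
    rw [key] at hx
    exact hx.1.symm

end

/-! ### From tori to affine space -/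

section

variable {n : ℕ} {G : ∀ (R : Type) [CommRing R], Prop} (hG : RG G)

/-- put the coordinates in `Z` equal to zero -/
noncomputable def zr (Z : Finset (Fin n)) : MvPolynomial (Fin n) ℤ →ₐ[ℤ] MvPolynomial (Fin n) ℤ :=
  aeval fun i => if i ∈ Z then 0 else X i

lemma ev_zr (Z : Finset (Fin n)) {A : Type} [CommRing A] (x : Fin n → A)
    (f : MvPolynomial (Fin n) ℤ) : ev x (zr Z f) = ev (fun i => if i ∈ Z then 0 else x i) f := by
  have h1 : (ev x).comp (zr Z).toRingHom = ev (fun i => if i ∈ Z then 0 else x i) := by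
    refine MvPolynomial.ringHom_ext' (RingHom.ext_int _ _) fun i => ?_
    show ev x (zr Z (X i)) = ev (fun i => if i ∈ Z then 0 else x i) (X i)
    unfold zr
    rw [ev_X, aeval_X]
    split_ifs
    · exact map_zero _
    · exact ev_X x i
  exact congrArg (fun φ : MvPolynomial (Fin n) ℤ →+* A => φ f) h1

include hG

/-- a stratum of affine space -/
lemma go_leaf (hT : ∀ (S : Finset (MvPolynomial (Fin n) ℤ)) (g : MvPolynomial (Fin n) ℤ),
      GO G (S : Set (MvPolynomial (Fin n) ℤ)) (tp n * g))
    (S : Finset (MvPolynomial (Fin n) ℤ)) (g : MvPolynomial (Fin n) ℤ) (Z : Finset (Fin n)) :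
    GO G ((S : Set (MvPolynomial (Fin n) ℤ)) ∪ X '' (Z : Set (Fin n)))
      (g * ∏ i ∈ Finset.univ \ Z, X i) := by
  classical
  have h1 : ∀ T : Finset (Fin n), T ⊆ Z →
      GO G (zr Z '' (S : Set (MvPolynomial (Fin n) ℤ)))
        (zr Z g * ∏ i ∈ Finset.univ \ T, X i) := by
    intro T
    induction T using Finset.induction_on with
    | empty =>
      intro _
      have := hT (S.image (zr Z)) (zr Z g)
      rw [Finset.coe_image] at this
      rw [Finset.sdiff_empty, mul_comm]
      exact this
    | insert a T ha ih =>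
      intro hT'
      have haZ : a ∈ Z := hT' (Finset.mem_insert_self _ _)
      have h2 := ih fun b hb => hT' (Finset.mem_insert_of_mem hb)
      have h3 : Finset.univ \ T = insert a (Finset.univ \ insert a T) := by
        ext b
        simp only [Finset.mem_sdiff, Finset.mem_univ, true_and, Finset.mem_insert]
        by_cases hb : b = a
        · subst hb; simp [ha]
        · simp [hb]
      rw [h3, Finset.prod_insert (by simp), mul_left_comm, mul_comm] at h2
      refine (hG.gl_gm a ?_).1 h2
      intro A _ x y hxy hx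
      have e1 : (fun i => if i ∈ Z then (0 : A) else y i) = fun i => if i ∈ Z then 0 else x i := by
        funext i
        split_ifs with hi
        · rfl
        · exact hxy i fun h => hi (h ▸ haZ)
      have e2 : ∏ i ∈ Finset.univ \ insert a T, y i = ∏ i ∈ Finset.univ \ insert a T, x i := by
        refine Finset.prod_congr rfl fun i hi => hxy i ?_
        rintro rfl
        simp at hi
      unfold Lc Pt at hx ⊢
      simp only [Set.forall_mem_image, ev_zr, map_mul, map_prod, ev_X] at hx ⊢
      rw [e1, e2]
      exact hx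
  have h2 : ∀ T : Finset (Fin n), T ⊆ Z →
      GO G (zr Z '' (S : Set (MvPolynomial (Fin n) ℤ)) ∪ X '' (T : Set (Fin n)))
        (zr Z g * ∏ i ∈ Finset.univ \ Z, X i) := by
    intro T
    induction T using Finset.induction_on with
    | empty =>
      intro _
      rw [Finset.coe_empty, Set.image_empty, Set.union_empty]
      exact h1 Z subset_rfl
    | insert a T ha ih =>
      intro hT'
      have haZ : a ∈ Z := hT' (Finset.mem_insert_self _ _)
      have h3 := ih fun b hb => hT' (Finset.mem_insert_of_mem hb)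
      rw [Finset.coe_insert, Set.image_insert_eq, Set.union_insert]
      refine (hG.gl_free a ?_).1 h3
      intro A _ x y hxy hx
      have e1 : (fun i => if i ∈ Z then (0 : A) else y i) = fun i => if i ∈ Z then 0 else x i := by
        funext i
        split_ifs with hi
        · rfl
        · exact hxy i fun h => hi (h ▸ haZ)
      have e2 : ∏ i ∈ Finset.univ \ Z, y i = ∏ i ∈ Finset.univ \ Z, x i := by
        refine Finset.prod_congr rfl fun i hi => hxy i ?_
        rintro rfl
        simp [haZ] at hi
      have e3 : ∀ i ∈ T, y i = x i := fun i hi => hxy i fun h => ha (h ▸ hi)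
      unfold Lc Pt at hx ⊢
      simp only [Set.mem_union, or_imp, forall_and, Set.forall_mem_image, ev_zr, map_mul,
        map_prod, ev_X, Finset.mem_coe] at hx ⊢
      rw [e1, e2]
      exact ⟨⟨hx.1.1, fun i hi => by rw [e3 i hi]; exact hx.1.2 hi⟩, hx.2⟩
  refine (hG.gl_congr fun A _ x => ?_).1 (h2 Z subset_rfl)
  unfold Lc Pt
  simp only [Set.mem_union, or_imp, forall_and, Set.forall_mem_image, ev_zr, map_mul, ev_X,
    Finset.mem_coe]
  have e : (∀ ⦃i⦄, i ∈ Z → x i = 0) → (fun i => if i ∈ Z then (0 : A) else x i) = x := by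
    intro h
    funext i
    split_ifs with hi
    · exact (h hi).symm
    · rfl
  constructor
  · rintro ⟨⟨h3, h4⟩, h5⟩
    rw [e h4] at h3 h5
    exact ⟨⟨h3, h4⟩, h5⟩
  · rintro ⟨⟨h3, h4⟩, h5⟩
    rw [e h4]
    exact ⟨⟨h3, h4⟩, h5⟩

/-- **Closed subsets of affine space from closed subsets of the torus.** -/
theorem hyp_of_torus (hT : ∀ (S : Finset (MvPolynomial (Fin n) ℤ)) (g : MvPolynomial (Fin n) ℤ),
      GO G (S : Set (MvPolynomial (Fin n) ℤ)) (tp n * g)) : HypG G n := by
  classical
  intro f
  have claim : ∀ T : Finset (Fin n), ∀ Z ⊆ Finset.univ \ T,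
      GO G ((({f} : Finset (MvPolynomial (Fin n) ℤ)) : Set (MvPolynomial (Fin n) ℤ)) ∪
        X '' (Z : Set (Fin n))) (1 * ∏ i ∈ (Finset.univ \ T) \ Z, X i) := by
    intro T
    induction T using Finset.induction_on with
    | empty =>
      intro Z _
      rw [Finset.sdiff_empty]
      exact go_leaf hG hT {f} 1 Z
    | insert a T ha ih =>
      intro Z hZ
      have haZ : a ∉ Z := fun h => by
        have := hZ h
        simp at this
      have hsub : Z ⊆ Finset.univ \ T := fun b hb => by
        have := hZ hb
        simp only [Finset.mem_sdiff, Finset.mem_univ, true_and, Finset.mem_insert] at this ⊢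
        tauto
      refine hG.gl_glue (X a) ?_ ?_
      · have h1 := ih (insert a Z) (by
          intro b hb
          rcases Finset.mem_insert.1 hb with rfl | hb
          · simp [ha]
          · exact hsub hb)
        rw [Finset.coe_insert, Set.image_insert_eq, Set.union_insert] at h1
        have h2 : (Finset.univ \ T) \ insert a Z = (Finset.univ \ insert a T) \ Z := by
          ext b
          simp only [Finset.mem_sdiff, Finset.mem_univ, true_and, Finset.mem_insert]
          tauto
        rw [h2] at h1
        exact h1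
      · have h1 := ih Z hsub
        have h2 : (Finset.univ \ T) \ Z = insert a ((Finset.univ \ insert a T) \ Z) := by
          ext b
          simp only [Finset.mem_sdiff, Finset.mem_univ, true_and, Finset.mem_insert]
          by_cases hb : b = a
          · subst hb; simp [ha, haZ]
          · simp [hb]
        rw [h2, Finset.prod_insert (by simp), mul_left_comm, mul_comm] at h1
        exact h1
  have h1 := claim Finset.univ ∅ (Finset.empty_subset _)
  rw [← hG.gl_one]
  refine (hG.gl_congr fun A _ x => ?_).1 h1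
  unfold Lc Pt
  simp

end

/-- **The homomorphisms from one-relator groups on `m + 2` generators to the affine group of the
line give all hypersurfaces in affine space of dimension `m + 2`.** -/
theorem hyp_of_one {m K : ℕ} {G : ∀ (R : Type) [CommRing R], Prop} (hG : RG G) (hS : Sem G)
    (h : OneG G (m + 2) K) : HypG G (m + 2) :=
  hyp_of_torus hG (go_torus hG hS h)

end Pool.Agent.OR
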