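import Pool.Agent.OR.Defs
import Pool.Agent.Helper81.HG.Cls
import Pool.Agent.Helper45.RM.Mod

/-!
# Words in the affine group
-/

set_option autoImplicit false

open MvPolynomial
open Pool.Agent.Helper81.CP Pool.Agent.Helper81.HG
open scoped commutatorElement

namespace Pool.Agent.OR

section

variable {n : ℕ} {A : Type} [CommRing A]

/-- the value of a letter -/
def lv (x : Fin n × Fin 3 → A) : Fin n × Bool → Matrix (Fin 2) (Fin 2) A
  | (i, true) => !![x (i, 0), x (i, 1); 0, 1]
  | (i, false) => !![x (i, 2), -(x (i, 2) * x (i, 1)); 0, 1]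

/-- the value of a word -/
def wv (x : Fin n × Fin 3 → A) (w : List (Fin n × Bool)) : Matrix (Fin 2) (Fin 2) A :=
  (w.map (lv x)).prod

lemma map_letter (x : Fin n × Fin 3 → A) (l : Fin n × Bool) :
    (ev x).mapMatrix (letter l) = lv x l := by
  obtain ⟨i, b⟩ := l
  ext r s
  cases b <;> fin_cases r <;> fin_cases s <;> simp [letter, lv]

lemma map_word (x : Fin n × Fin 3 → A) (w : List (Fin n × Bool)) :
    (ev x).mapMatrix (word w) = wv x w := by
  unfold word wv
  rw [map_list_prod, List.map_map]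
  congr 1
  exact List.map_congr_left fun l _ => map_letter x l

lemma wv_append (x : Fin n × Fin 3 → A) (u v : List (Fin n × Bool)) :
    wv x (u ++ v) = wv x u * wv x v := by
  unfold wv
  rw [List.map_append, List.prod_append]

lemma wv_nil (x : Fin n × Fin 3 → A) : wv x [] = 1 := rfl

lemma wv_cons (x : Fin n × Fin 3 → A) (l : Fin n × Bool) (w : List (Fin n × Bool)) :
    wv x (l :: w) = lv x l * wv x w := by
  unfold wv
  rw [List.map_cons, List.prod_cons]

lemma pt_relations {ι : Type} {w : ι → List (Fin n × Bool)} {x : Fin n × Fin 3 → A} :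
    Pt (relations w) x ↔ (∀ i, x (i, 0) * x (i, 2) = 1) ∧ ∀ k, wv x (w k) = 1 := by
  have h : Pt (relations w) x ↔ (∀ i, x (i, 0) * x (i, 2) - 1 = 0) ∧
      ∀ k r s, ev x ((word (w k) - 1) r s) = 0 := by
    unfold relations Pt
    constructor
    · intro h
      refine ⟨fun i => ?_, fun k r s => h _ (Or.inr ⟨k, r, s, rfl⟩)⟩
      have := h _ (Or.inl ⟨i, rfl⟩)
      simpa using this
    · rintro ⟨h1, h2⟩ p (⟨i, rfl⟩ | ⟨k, r, s, rfl⟩)
      · simpa using h1 i
      · exact h2 k r s
  rw [h]
  refine and_congr (forall_congr' fun i => sub_eq_zero) (forall_congr' fun k => ?_)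
  rw [← map_word]
  constructor
  · intro h'
    ext r s
    have := h' r s
    rw [Matrix.sub_apply, map_sub, sub_eq_zero] at this
    rw [RingHom.mapMatrix_apply, Matrix.map_apply, this]
    by_cases hrs : r = s
    · subst hrs; simp
    · simp [Matrix.one_apply_ne hrs]
  · intro h' r s
    have h2 := congrFun (congrFun h' r) s
    rw [RingHom.mapMatrix_apply, Matrix.map_apply] at h2
    rw [Matrix.sub_apply, map_sub, h2]
    by_cases hrs : r = s
    · subst hrs; simp
    · simp [Matrix.one_apply_ne hrs]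

end

/-! ### Words which are multiplications by polynomials -/

section

variable {m : ℕ}

/-- the translation which is the value of the commutator of the first two generators -/
def dd {A : Type} [CommRing A] (x : Fin (m + 2) × Fin 3 → A) : A :=
  (x (0, 0) - 1) * x (1, 1) - (x (1, 0) - 1) * x (0, 1)

/-- the word `w` is the multiplication by the polynomial `p` -/
def Rz (p : MvPolynomial (Fin (m + 2)) ℤ) (w : List (Fin (m + 2) × Bool)) : Prop :=
  FreeGroup.mk w ∈ commutator (FreeGroup (Fin (m + 2))) ∧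
  ∀ (A : Type) [CommRing A] (x : Fin (m + 2) × Fin 3 → A), (∀ i, x (i, 0) * x (i, 2) = 1) →
    wv x w = !![1, ev (fun i => x (i, 0)) p * dd x; 0, 1]

lemma rz_nil : Rz (m := m) 0 [] := by
  refine ⟨?_, fun A _ x _ => ?_⟩
  · exact Subgroup.one_mem _
  · rw [wv_nil, map_zero, zero_mul]
    ext r s
    fin_cases r <;> fin_cases s <;> simp

lemma Rz.add {p q : MvPolynomial (Fin (m + 2)) ℤ} {u v : List (Fin (m + 2) × Bool)}
    (hp : Rz p u) (hq : Rz q v) : Rz (p + q) (u ++ v) := by
  refine ⟨?_, fun A _ x hx => ?_⟩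
  · rw [← FreeGroup.mul_mk]
    exact Subgroup.mul_mem _ hp.1 hq.1
  · rw [wv_append, hp.2 A x hx, hq.2 A x hx, map_add]
    ext r s
    fin_cases r <;> fin_cases s <;> simp [Matrix.mul_apply, Fin.sum_univ_two]
    ring

lemma Rz.pow {p : MvPolynomial (Fin (m + 2)) ℤ} {w : List (Fin (m + 2) × Bool)} (hp : Rz p w) :
    ∀ k : ℕ, Rz ((k : MvPolynomial (Fin (m + 2)) ℤ) * p) (List.replicate k w).flatten
  | 0 => by
    rw [Nat.cast_zero, zero_mul]
    exact rz_nil
  | k + 1 => by
    have h := hp.add (hp.pow k)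
    rw [List.replicate_succ, List.flatten_cons, Nat.cast_succ]
    have e : ((k : MvPolynomial (Fin (m + 2)) ℤ) + 1) * p = p + (k : MvPolynomial _ ℤ) * p := by
      ring
    rw [e]
    exact h

lemma rz_one : Rz (m := m) 1 [(0, true), (1, true), (0, false), (1, false)] := by
  refine ⟨?_, fun A _ x hx => ?_⟩
  · have h : FreeGroup.mk [((0 : Fin (m + 2)), true), (1, true), (0, false), (1, false)] =
        ⁅FreeGroup.of (0 : Fin (m + 2)), FreeGroup.of 1⁆ := by
      rw [commutatorElement_def, FreeGroup.of, FreeGroup.of, FreeGroup.inv_mk, FreeGroup.inv_mk,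
        FreeGroup.mul_mk, FreeGroup.mul_mk, FreeGroup.mul_mk]
      rfl
    rw [h]
    exact Subgroup.commutator_mem_commutator (Subgroup.mem_top _) (Subgroup.mem_top _)
  · have h0 := hx 0
    have h1 := hx 1
    rw [map_one, one_mul]
    ext r s
    fin_cases r <;> fin_cases s <;>
      simp [wv, lv, dd, Matrix.mul_apply, Fin.sum_univ_two]
    · linear_combination (x (1, 0) * x (1, 2)) * h0 + h1
    · linear_combination (- x (1, 1) * x (1, 0) * x (1, 2) - x (1, 0) * x (0, 1)) * h0
        - x (1, 1) * h1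

lemma rz_neg_one : Rz (m := m) (-1) [(1, true), (0, true), (1, false), (0, false)] := by
  refine ⟨?_, fun A _ x hx => ?_⟩
  · have h : FreeGroup.mk [((1 : Fin (m + 2)), true), (0, true), (1, false), (0, false)] =
        ⁅FreeGroup.of (1 : Fin (m + 2)), FreeGroup.of 0⁆ := by
      rw [commutatorElement_def, FreeGroup.of, FreeGroup.of, FreeGroup.inv_mk, FreeGroup.inv_mk,
        FreeGroup.mul_mk, FreeGroup.mul_mk, FreeGroup.mul_mk]
      rfl
    rw [h]
    exact Subgroup.commutator_mem_commutator (Subgroup.mem_top _) (Subgroup.mem_top _)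
  · have h0 := hx 0
    have h1 := hx 1
    rw [map_neg, map_one, neg_one_mul]
    ext r s
    fin_cases r <;> fin_cases s <;>
      simp [wv, lv, dd, Matrix.mul_apply, Fin.sum_univ_two]
    · linear_combination (x (1, 0) * x (1, 2)) * h0 + h1
    · linear_combination (- x (0, 1) * x (0, 0) * x (0, 2) - x (0, 0) * x (1, 1)) * h1
        - x (0, 1) * h0

lemma rz_C (c : ℤ) : ∃ w, Rz (m := m) (C c) w := by
  induction c using Int.induction_on with
  | zero => exact ⟨_, by rw [map_zero]; exact rz_nil⟩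
  | succ k ih =>
    obtain ⟨w, hw⟩ := ih
    exact ⟨_, by rw [map_add, map_one]; exact hw.add rz_one⟩
  | pred k ih =>
    obtain ⟨w, hw⟩ := ih
    have h := hw.add (rz_neg_one (m := m))
    refine ⟨w ++ [(1, true), (0, true), (1, false), (0, false)], ?_⟩
    have e : (C (-(k : ℤ) - 1) : MvPolynomial (Fin (m + 2)) ℤ) = C (-(k : ℤ)) + -1 := by
      rw [sub_eq_add_neg, map_add, C_neg (a := (1 : ℤ)), C_1]
    rw [e]
    exact h

lemma Rz.mul_X {p : MvPolynomial (Fin (m + 2)) ℤ} {w : List (Fin (m + 2) × Bool)}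
    (hp : Rz p w) (i : Fin (m + 2)) : Rz (p * X i) ((i, true) :: (w ++ [(i, false)])) := by
  refine ⟨?_, fun A _ x hx => ?_⟩
  · have h : FreeGroup.mk ((i, true) :: (w ++ [(i, false)])) =
        FreeGroup.of i * FreeGroup.mk w * (FreeGroup.of i)⁻¹ := by
      rw [FreeGroup.of, FreeGroup.inv_mk, FreeGroup.mul_mk, FreeGroup.mul_mk]
      simp [FreeGroup.invRev]
    rw [h]
    exact (inferInstance : (commutator (FreeGroup (Fin (m + 2)))).Normal).conj_mem _ hp.1 _
  · rw [wv_cons, wv_append, hp.2 A x hx, map_mul, ev_X, wv_cons, wv_nil]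
    have h0 := hx i
    ext r s
    fin_cases r <;> fin_cases s <;>
      simp [lv, Matrix.mul_apply, Fin.sum_univ_two]
    · linear_combination h0
    · linear_combination (- x (i, 1)) * h0

/-- **Every polynomial is the multiplication by a word.** -/
theorem exists_rz (p : MvPolynomial (Fin (m + 2)) ℤ) : ∃ w, Rz p w := by
  induction p using MvPolynomial.induction_on with
  | C c => exact rz_C c
  | add p q hp hq =>
    obtain ⟨u, hu⟩ := hp
    obtain ⟨v, hv⟩ := hq
    exact ⟨_, hu.add hv⟩
  | mul_X p i hp =>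
    obtain ⟨u, hu⟩ := hp
    exact ⟨_, hu.mul_X i⟩

end

end Pool.Agent.OR
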